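import Pool.Agent.Lib.MP_4dc748_co.TC.Arc

/-!
# MP_4dc748_co: m_n(R) for n just below q(q+1)/2, chain rings of length 2 and characteristic 2

The definitions IsChainRing, IsPoint, IsLine, IsArc and arcMax are in the file
Pool.Agent.Lib.MP_4dc748_co.TA.St.
-/

set_option autoImplicit false

namespace Pool.Agent.Results.MP_4dc748_co.HalfWindow

open Pool.Agent.Lib.MP_4dc748_co.TA

/-- Let R be a finite chain ring of characteristic 2 with residue field F (R modulo its Jacobson radical is
isomorphic to F), |R| = q^2, q = |F| at least 4, and let j be at least 1. If 2 j^2 is at most q then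
m_n(R) = q (q + 1) (q^2 / 2 - j) for n = q (q + 1) / 2 - j. If 2 j < q then this number is a lower bound. -/
theorem result (R : Type) [Ring R] [Finite R] (_hR : IsChainRing R) (F : Type) [Field F]
    [Finite F] (hF : Nonempty ((R ⧸ Ring.jacobson R) ≃+* F))
    (hcard : Nat.card R = Nat.card F ^ 2) (hchar : CharP R 2) (hq : 4 ≤ Nat.card F)
    (j : ℕ) (hj : 1 ≤ j) :
    (2 * j ^ 2 ≤ Nat.card F → arcMax R (Nat.card F * (Nat.card F + 1) / 2 - j) =
      Nat.card F * (Nat.card F + 1) * (Nat.card F ^ 2 / 2 - j)) ∧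
    (2 * j < Nat.card F → Nat.card F * (Nat.card F + 1) * (Nat.card F ^ 2 / 2 - j) ≤
      arcMax R (Nat.card F * (Nat.card F + 1) / 2 - j)) := by
  obtain ⟨e⟩ := hF
  exact (Pool.Agent.Lib.MP_4dc748_co.TC.arcMax_window R F e hchar hcard hq j hj).symm

end Pool.Agent.Results.MP_4dc748_co.HalfWindow
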