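import Pool.Agent.Lib.MP_4dc748_co.TE.FinD

/-!
# MP_4dc748_co: the two chain rings of order 16 and characteristic 2 have different m_7

The definitions IsChainRing, IsPoint, IsLine, IsArc and arcMax are in the file
Pool.Agent.Lib.MP_4dc748_co.TA.St.
-/

set_option autoImplicit false

namespace Pool.Agent.Results.MP_4dc748_co.NotEqual

open Pool.Agent.Lib.MP_4dc748_co.TA Pool.Agent.Lib.MP_4dc748_co.TE Pool.Agent.Lib.MP_4dc748_co.TE.Tw

/-- There are a finite field F with 4 elements and two finite chain rings R, R' of order 4^2 and characteristic 2,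
both with residue field F, such that R is commutative and R' is not (so they are not isomorphic),
m_7(R) is at least 99 and m_7(R') is at most 98. In particular m_7(R) and m_7(R') are different. -/
theorem result : ∃ (F : Type) (_ : Field F) (_ : Finite F) (R R' : Type) (_ : Ring R) (_ : Ring R'),
    Finite R ∧ Finite R' ∧ IsChainRing R ∧ IsChainRing R' ∧ Nat.card F = 4 ∧
    Nat.card R = Nat.card F ^ 2 ∧ Nat.card R' = Nat.card F ^ 2 ∧
    Nonempty ((R ⧸ Ring.jacobson R) ≃+* F) ∧ Nonempty ((R' ⧸ Ring.jacobson R') ≃+* F) ∧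
    CharP R 2 ∧ CharP R' 2 ∧ IsEmpty (R ≃+* R') ∧ (∀ x y : R, x * y = y * x) ∧
    99 ≤ arcMax R 7 ∧ arcMax R' 7 ≤ 98 ∧ arcMax R 7 ≠ arcMax R' 7 := by
  refine ⟨F4, inferInstance, inferInstance, Tw F4 (RingEquiv.refl F4), Tw F4 F4.frob, inferInstance,
    inferInstance, finite, finite, isChain, isChain, F4.natCard_F4, natCard, natCard, residue, residue, charP, charP,
    not_iso, ?_, arcMax_S, arcMax_T, ?_⟩
  · rintro ⟨a, b⟩ ⟨c, d⟩
    change (⟨a * c, a * d + b * c⟩ : Tw F4 (RingEquiv.refl F4)) = ⟨c * a, c * b + d * a⟩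
    rw [mul_comm a c, mul_comm a d, mul_comm b c, add_comm (d * a)]
  · have h1 := arcMax_S
    have h2 := arcMax_T
    omega

end Pool.Agent.Results.MP_4dc748_co.NotEqual
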