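import Pool.Agent.Lib.MP_4dc748_co.TA.Main

/-!
# MP_4dc748_co: m_2(R) = q^2 + 2 for every finite chain ring R of length 2 and characteristic 2

The definitions IsChainRing, IsPoint, IsLine, IsArc and arcMax are in the file
Pool.Agent.Lib.MP_4dc748_co.TA.St.
-/

set_option autoImplicit false

namespace Pool.Agent.Results.MP_4dc748_co.TwoArcs

open Pool.Agent.Lib.MP_4dc748_co.TA

/-- Let R be a finite chain ring of characteristic 2 with residue field F (R modulo its Jacobson radical is
isomorphic to F) and |R| = |F|^2. Then m_2(R) = |F|^2 + 2. -/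
theorem result (R : Type) [Ring R] [Finite R] (_hR : IsChainRing R) (F : Type) [Field F]
    [Finite F] (hF : Nonempty ((R ⧸ Ring.jacobson R) ≃+* F))
    (hcard : Nat.card R = Nat.card F ^ 2) (hchar : CharP R 2) :
    arcMax R 2 = Nat.card F ^ 2 + 2 := by
  obtain ⟨e⟩ := hF
  exact arcMax_two R F e hchar hcard

end Pool.Agent.Results.MP_4dc748_co.TwoArcs
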